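import Pool.Agent.V11312.PW.Digits

/-! Sets of integers with a fixed small power of the logarithm saved, in random residue classes modulo sparse sequences of
moduli (variant of `Pool.Agent.V11312.PD.ae_classes`). -/

set_option autoImplicit false

open Finset Filter Topology MeasureTheory

namespace Pool.Agent.V11300.PA

open Pool.Agent.V11312.PD

theorem ae_log (b : ℕ → ℕ) (Bad : ℤ → Prop) {δ C : ℝ} (hδ : 0 < δ)
    (hbad : ∀ X : ℕ, 3 ≤ X → ({k : ℤ | k.natAbs ≤ X ∧ Bad k}.ncard : ℝ) ≤ C * X * Real.log X ^ (-δ))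
    (L : ℕ → ℝ) (hL : ∀ j, 1 ≤ L j) (hsum : Summable fun j => L j * Real.log (modulus b j) ^ (-δ)) :
    ∀ᵐ ω ∂(law b), ∃ j₀ : ℕ, ∀ j : ℕ, j₀ ≤ j → ∀ k : ℤ, |(k : ℝ)| ≤ L j * modulus b j →
      (value b ω j : ℤ) ≡ k [ZMOD (modulus b j : ℤ)] → ¬ Bad k := by
  classical
  set A : ℕ → Set (∀ i, Fin (b i + 2)) := fun j => {ω | 2 ≤ j ∧ ∃ k : ℤ,
    |(k : ℝ)| ≤ L j * modulus b j ∧ (value b ω j : ℤ) ≡ k [ZMOD (modulus b j : ℤ)] ∧ Bad k} with hA
  have hsum' : ∑' j, law b (A j) ≠ ⊤ := by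
    have hs : Summable (fun j : ℕ => |C| * (L j * Real.log (modulus b j) ^ (-δ))) := hsum.mul_left _
    refine ne_top_of_le_ne_top hs.tsum_ofReal_ne_top (ENNReal.tsum_le_tsum fun j => ?_)
    by_cases hj : 2 ≤ j
    swap
    · have : A j = ∅ := by
        ext ω
        simp [hA, hj]
      rw [this, measure_empty]
      exact bot_le
    set m : ℝ := (modulus b j : ℝ) with hm
    have h4m : 4 ≤ modulus b j := by
      have h1 : 2 ^ 2 ≤ 2 ^ j := Nat.pow_le_pow_right (by norm_num) hj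
      have h2 := two_pow_le b j
      omega
    have h4 : (4 : ℝ) ≤ m := by
      rw [hm]
      exact_mod_cast h4m
    have hm0 : 0 < m := by linarith
    have hL0 : 0 < Real.log m := Real.log_pos (by linarith)
    have hLj := hL j
    have hLm : 0 ≤ L j * m := mul_nonneg (by linarith) hm0.le
    set N : ℕ := ⌊L j * m⌋₊ with hN
    have hNle : (N : ℝ) ≤ L j * m := Nat.floor_le hLm
    have hNm : modulus b j ≤ N := by
      apply Nat.le_floor
      have : m ≤ L j * m := by nlinarith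
      exact this
    have hNm' : m ≤ N := by
      rw [hm]
      exact_mod_cast hNm
    have hfin : {k : ℤ | k.natAbs ≤ N ∧ Bad k}.Finite := (Set.finite_Icc (-(N : ℤ)) N).subset fun k hk => by
      have h1 : k.natAbs ≤ N := hk.1
      rw [Set.mem_Icc]
      omega
    have hsub : A j ⊆ ⋃ k ∈ hfin.toFinset, {ω | (value b ω j : ℤ) ≡ k [ZMOD (modulus b j : ℤ)]} := by
      rintro ω ⟨-, k, h1, h2, h3⟩
      simp only [Set.mem_iUnion]
      refine ⟨k, ?_, h2⟩
      rw [Set.Finite.mem_toFinset]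
      refine ⟨?_, h3⟩
      apply Nat.le_floor
      rw [Nat.cast_natAbs, Int.cast_abs]
      exact h1
    have hcard : (hfin.toFinset.card : ℝ) ≤ C * N * Real.log N ^ (-δ) := by
      rw [← Set.ncard_eq_toFinset_card _ hfin]
      exact hbad N (by omega)
    have hlogN : Real.log m ≤ Real.log N := Real.log_le_log hm0 hNm'
    have h1 : Real.log N ^ (-δ) ≤ Real.log m ^ (-δ) := Real.rpow_le_rpow_of_nonpos hL0 hlogN (by linarith)
    have h5 : 0 ≤ Real.log N ^ (-δ) := Real.rpow_nonneg (by linarith) _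
    have h2 : (hfin.toFinset.card : ℝ) ≤ |C| * (L j * m) * Real.log m ^ (-δ) := by
      refine hcard.trans ?_
      calc C * N * Real.log N ^ (-δ) ≤ |C| * N * Real.log N ^ (-δ) :=
            mul_le_mul_of_nonneg_right (mul_le_mul_of_nonneg_right (le_abs_self C) (Nat.cast_nonneg _)) h5
        _ ≤ |C| * (L j * m) * Real.log m ^ (-δ) :=
            mul_le_mul (mul_le_mul_of_nonneg_left hNle (abs_nonneg C)) h1 h5 (mul_nonneg (abs_nonneg C) hLm)
    have hfinal : (hfin.toFinset.card : ℝ) * (1 / m) ≤ |C| * (L j * Real.log m ^ (-δ)) := by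
      calc (hfin.toFinset.card : ℝ) * (1 / m) ≤ |C| * (L j * m) * Real.log m ^ (-δ) * (1 / m) :=
            mul_le_mul_of_nonneg_right h2 (by positivity)
        _ = |C| * (L j * Real.log m ^ (-δ)) := by
            field_simp
    calc law b (A j) ≤ law b (⋃ k ∈ hfin.toFinset, {ω | (value b ω j : ℤ) ≡ k [ZMOD (modulus b j : ℤ)]}) :=
          measure_mono hsub
      _ ≤ ∑ k ∈ hfin.toFinset, law b {ω | (value b ω j : ℤ) ≡ k [ZMOD (modulus b j : ℤ)]} :=
          measure_biUnion_finset_le _ _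
      _ ≤ ∑ _k ∈ hfin.toFinset, ENNReal.ofReal (1 / m) := sum_le_sum fun k _ => prob_class b j k
      _ = ENNReal.ofReal ((hfin.toFinset.card : ℝ) * (1 / m)) := by
          rw [sum_const, nsmul_eq_mul, ENNReal.ofReal_mul (Nat.cast_nonneg _), ENNReal.ofReal_natCast]
      _ ≤ _ := ENNReal.ofReal_le_ofReal hfinal
  filter_upwards [ae_eventually_notMem hsum'] with ω hω
  obtain ⟨j₀, hj₀⟩ := eventually_atTop.1 hω
  refine ⟨max j₀ 2, fun j hj k hk1 hk2 hk3 => ?_⟩
  exact hj₀ j ((le_max_left _ _).trans hj) ⟨(le_max_right _ _).trans hj, k, hk1, hk2, hk3⟩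

lemma modulus_tower (q : ℕ) (hq : 2 ≤ q) (j : ℕ) : modulus (fun i => q ^ (2 ^ i) - 2) j = q ^ (2 ^ j - 1) := by
  induction j with
  | zero => simp [modulus]
  | succ j ih =>
    have h0 : q ^ 1 ≤ q ^ (2 ^ j) := Nat.pow_le_pow_right (by omega) Nat.one_le_two_pow
    have h1 : 2 ≤ q ^ (2 ^ j) := hq.trans (by rwa [pow_one] at h0)
    have h2 : q ^ (2 ^ j) - 2 + 2 = q ^ (2 ^ j) := by omega
    rw [modulus_succ, ih, h2, ← pow_add]
    congr 1
    have h3 : 1 ≤ 2 ^ j := Nat.one_le_two_pow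
    rw [pow_succ]
    omega

lemma summable_tower (q : ℕ) (hq : 2 ≤ q) (δ κ : ℝ) (hδ : 0 < δ) (hκ : κ < δ) :
    Summable fun j : ℕ => (2 : ℝ) ^ (κ * j) * Real.log ((q ^ (2 ^ j - 1) : ℕ) : ℝ) ^ (-δ) := by
  have hlq : 0 < Real.log q := Real.log_pos (by exact_mod_cast (by omega : 1 < q))
  have hr : (2 : ℝ) ^ (κ - δ) < 1 := Real.rpow_lt_one_of_one_lt_of_neg (by norm_num) (by linarith)
  have hr0 : 0 ≤ (2 : ℝ) ^ (κ - δ) := by positivity
  refine Summable.of_nonneg_of_le (fun j => ?_) (fun j => ?_)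
    ((summable_geometric_of_lt_one hr0 hr).mul_left ((Real.log q / 2) ^ (-δ)))
  · have h1 : 0 ≤ Real.log ((q ^ (2 ^ j - 1) : ℕ) : ℝ) := Real.log_natCast_nonneg _
    positivity
  · rcases Nat.eq_zero_or_pos j with rfl | hj
    · have h1 : Real.log ((q ^ (2 ^ 0 - 1) : ℕ) : ℝ) = 0 := by simp
      rw [h1, Real.zero_rpow (by linarith), mul_zero]
      positivity
    · have h2 : Real.log ((q ^ (2 ^ j - 1) : ℕ) : ℝ) = ((2 ^ j - 1 : ℕ) : ℝ) * Real.log q := by
        push_cast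
        rw [Real.log_pow]
      have h3 : ((2 : ℝ) ^ j) * (Real.log q / 2) ≤ ((2 ^ j - 1 : ℕ) : ℝ) * Real.log q := by
        have h4 : (2 : ℕ) ^ 1 ≤ 2 ^ j := Nat.pow_le_pow_right (by norm_num) hj
        have h5 : ((2 : ℝ) ^ j) / 2 ≤ ((2 ^ j - 1 : ℕ) : ℝ) := by
          rw [Nat.cast_sub Nat.one_le_two_pow]
          push_cast
          have h6 : (2 : ℝ) ≤ 2 ^ j := by exact_mod_cast h4
          linarith
        calc ((2 : ℝ) ^ j) * (Real.log q / 2) = ((2 : ℝ) ^ j) / 2 * Real.log q := by ring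
          _ ≤ _ := mul_le_mul_of_nonneg_right h5 hlq.le
      rw [h2]
      calc (2 : ℝ) ^ (κ * j) * (((2 ^ j - 1 : ℕ) : ℝ) * Real.log q) ^ (-δ)
          ≤ (2 : ℝ) ^ (κ * j) * (((2 : ℝ) ^ j) * (Real.log q / 2)) ^ (-δ) := by
            apply mul_le_mul_of_nonneg_left _ (by positivity)
            exact Real.rpow_le_rpow_of_nonpos (by positivity) h3 (by linarith)
        _ = (Real.log q / 2) ^ (-δ) * ((2 : ℝ) ^ (κ - δ)) ^ j := by
            rw [Real.mul_rpow (by positivity) (by positivity), ← Real.rpow_natCast (2 : ℝ) j, ← Real.rpow_mul (by norm_num),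
              ← Real.rpow_natCast ((2 : ℝ) ^ (κ - δ)) j, ← Real.rpow_mul (by norm_num)]
            rw [mul_comm ((Real.log q / 2) ^ (-δ)), ← mul_assoc, ← Real.rpow_add (by norm_num)]
            congr 2
            ring

end Pool.Agent.V11300.PA
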