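import Pool.Agent.H107.MetricFam

/-! Thin sets of tuples of integers in the residue classes modulo `p ^ f` of almost every point of `ℤ_p ^ ι`; the
sets may depend on the exponent `f`. -/

set_option autoImplicit false

open Filter Topology

namespace Pool.Agent.V11300.PA

/-- The sets `S j f` of members of `Q` have at most `C_j T ^ s` members of height at most `T`. For all `α` outside a
set of dimension at most `κ s`, all `j` and all large `f` no `x` of height at most `b ^ (κ f)` and with distance at most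
`b ^ (-f)` between `ψ x` and `α` is in `S j f`. -/
theorem general {M : Type*} [MetricSpace M] {Q : Type*} (ψ : Q → M) (ht : Q → ℕ) {b : ℝ} (hb : 1 < b) {s κ : ℝ}
    (hs : 0 ≤ s) (hκ : 0 < κ) (S : ℕ → ℕ → Set Q) (C : ℕ → ℝ)
    (hS : ∀ j f T : ℕ, 1 ≤ T → {x | x ∈ S j f ∧ ht x ≤ T}.Finite ∧
      ({x | x ∈ S j f ∧ ht x ≤ T}.ncard : ℝ) ≤ C j * (T : ℝ) ^ s) :
    ∃ E : Set M, dimH E ≤ ENNReal.ofReal (κ * s) ∧ ∀ α ∉ E, ∀ j, ∃ f₀ : ℕ, ∀ f : ℕ, f₀ ≤ f → ∀ x : Q,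
      (ht x : ℝ) ≤ b ^ (κ * f) → dist (ψ x) α ≤ b ^ (-(f : ℝ)) → x ∉ S j f := by
  have hb0 : 0 < b := by linarith
  have hlog : 0 < Real.log b := Real.log_pos hb
  obtain ⟨E, hE1, hE2⟩ := Pool.Agent.H107.ME.dim_family (fun t : ℕ × Q => ψ t.2) (fun t => b ^ (κ * t.1))
    (fun t => Real.one_le_rpow hb.le (by positivity)) hs (σ := κ⁻¹) (inv_pos.2 hκ)
    (fun j : ℕ => {t : ℕ × Q | t.2 ∈ S j t.1 ∧ (ht t.2 : ℝ) ≤ b ^ (κ * t.1)}) (by
      intro j ε hε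
      refine ⟨(1 / (ε * κ * Real.log b) + 1) * |C j|, fun X hX => ?_⟩
      have hX0 : 0 < X := by linarith
      have hXε : 1 ≤ X ^ ε := Real.one_le_rpow hX hε.le
      have hD : 0 < 1 / (ε * κ * Real.log b) := by positivity
      set D : ℝ := 1 / (ε * κ * Real.log b) with hDdef
      have hsub : {t : ℕ × Q | t ∈ {t : ℕ × Q | t.2 ∈ S j t.1 ∧ (ht t.2 : ℝ) ≤ b ^ (κ * t.1)} ∧ b ^ (κ * t.1) ≤ X} ⊆
          ⋃ f ∈ Finset.range (⌊D * X ^ ε⌋₊ + 1), (fun x : Q => (f, x)) '' {x | x ∈ S j f ∧ ht x ≤ ⌊X⌋₊} := by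
        rintro ⟨f, x⟩ ⟨⟨h1, h2⟩, h3⟩
        simp only at h1 h2 h3
        refine Set.mem_biUnion (x := f) ?_ ⟨x, ⟨h1, Nat.le_floor (h2.trans h3)⟩, rfl⟩
        have h4 : κ * f * Real.log b ≤ X ^ ε / ε := by
          have h5 := Real.log_le_log (by positivity) h3
          rw [Real.log_rpow hb0] at h5
          exact h5.trans (Real.log_le_rpow_div hX0.le hε)
        have h6 : (f : ℝ) ≤ D * X ^ ε := by
          rw [hDdef, div_mul_eq_mul_div, one_mul, le_div_iff₀ (by positivity)]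
          rw [le_div_iff₀ hε] at h4
          calc (f : ℝ) * (ε * κ * Real.log b) = κ * f * Real.log b * ε := by ring
            _ ≤ X ^ ε := h4
        exact Finset.mem_coe.2 (Finset.mem_range.2 (Nat.lt_succ_of_le (Nat.le_floor h6)))
      have hX1 : 1 ≤ ⌊X⌋₊ := Nat.le_floor (by exact_mod_cast hX)
      have hfin : (⋃ f ∈ Finset.range (⌊D * X ^ ε⌋₊ + 1),
          (fun x : Q => (f, x)) '' {x | x ∈ S j f ∧ ht x ≤ ⌊X⌋₊}).Finite := by
        refine Set.Finite.biUnion (Finset.finite_toSet _) fun f _ => ?_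
        exact (hS j f _ hX1).1.image _
      refine ⟨hfin.subset hsub, ?_⟩
      have h1 : ({t : ℕ × Q | t ∈ {t : ℕ × Q | t.2 ∈ S j t.1 ∧ (ht t.2 : ℝ) ≤ b ^ (κ * t.1)} ∧
          b ^ (κ * t.1) ≤ X}.ncard : ℝ) ≤ ∑ f ∈ Finset.range (⌊D * X ^ ε⌋₊ + 1), |C j| * X ^ s := by
        have h2 := (Set.ncard_le_ncard hsub hfin).trans (Finset.set_ncard_biUnion_le _ _)
        refine ((Nat.cast_le (α := ℝ)).2 h2).trans ?_
        rw [Nat.cast_sum]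
        refine Finset.sum_le_sum fun f _ => ?_
        have h3 : ((fun x : Q => (f, x)) '' {x | x ∈ S j f ∧ ht x ≤ ⌊X⌋₊}).ncard =
            {x | x ∈ S j f ∧ ht x ≤ ⌊X⌋₊}.ncard :=
          Set.ncard_image_of_injective _ fun x y h => (Prod.mk.inj h).2
        rw [h3]
        refine (hS j f _ hX1).2.trans ?_
        refine mul_le_mul (le_abs_self _) ?_ (by positivity) (abs_nonneg _)
        exact Real.rpow_le_rpow (Nat.cast_nonneg _) (Nat.floor_le hX0.le) hs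
      refine h1.trans ?_
      rw [Finset.sum_const, Finset.card_range, nsmul_eq_mul, Nat.cast_add, Nat.cast_one, Real.rpow_add hX0]
      have h4 : (⌊D * X ^ ε⌋₊ : ℝ) ≤ D * X ^ ε := Nat.floor_le (by positivity)
      have h5 : (⌊D * X ^ ε⌋₊ : ℝ) + 1 ≤ (D + 1) * X ^ ε := by nlinarith
      calc ((⌊D * X ^ ε⌋₊ : ℝ) + 1) * (|C j| * X ^ s) ≤ ((D + 1) * X ^ ε) * (|C j| * X ^ s) :=
            mul_le_mul_of_nonneg_right h5 (by positivity)
        _ = (D + 1) * |C j| * (X ^ s * X ^ ε) := by ring)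
  refine ⟨E, ?_, fun α hα j => ?_⟩
  · rw [div_inv_eq_mul, mul_comm] at hE1
    exact hE1
  · have hfin := hE2 α hα j
    obtain ⟨f₀, hf₀⟩ := (hfin.image Prod.fst).bddAbove
    refine ⟨f₀ + 1, fun f hf x hx hd hmem => ?_⟩
    have h1 : f ≤ f₀ := hf₀ ⟨(f, x), ⟨⟨hmem, hx⟩, ?_⟩, rfl⟩
    · omega
    · refine hd.trans (le_of_eq ?_)
      simp only
      rw [← Real.rpow_mul hb0.le]
      congr 1
      field_simp

/-- the distance and divisibility -/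
theorem dist_le_of_dvd (p : ℕ) [hp : Fact p.Prime] {f : ℕ} {x α : ℤ_[p]} (h : (p : ℤ_[p]) ^ f ∣ x - α) :
    ‖x - α‖ ≤ (p : ℝ) ^ (-(f : ℝ)) := by
  have h1 := (PadicInt.norm_le_pow_iff_mem_span_pow (x - α) f).2 (Ideal.mem_span_singleton.2 h)
  rw [Real.rpow_neg (Nat.cast_nonneg _), Real.rpow_natCast]
  rwa [zpow_neg, zpow_natCast] at h1

/-- **Tuples of natural numbers.** -/
theorem classes_nat (p : ℕ) [hp : Fact p.Prime] {ι : Type} [Fintype ι] {s κ : ℝ} (hs : 0 ≤ s) (hκ : 0 < κ)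
    (S : ℕ → ℕ → Set (ι → ℕ)) (C : ℕ → ℝ)
    (hS : ∀ j f T : ℕ, 1 ≤ T → {x : ι → ℕ | x ∈ S j f ∧ ∀ i, x i ≤ T}.Finite ∧
      ({x : ι → ℕ | x ∈ S j f ∧ ∀ i, x i ≤ T}.ncard : ℝ) ≤ C j * (T : ℝ) ^ s) :
    ∃ E : Set (ι → ℤ_[p]), dimH E ≤ ENNReal.ofReal (κ * s) ∧ ∀ α ∉ E, ∀ j, ∃ f₀ : ℕ, ∀ f : ℕ, f₀ ≤ f →
      ∀ x : ι → ℕ, (∀ i, (x i : ℝ) ≤ (p : ℝ) ^ (κ * f)) → (∀ i, (p : ℤ_[p]) ^ f ∣ (x i : ℤ_[p]) - α i) → x ∉ S j f := by
  classical
  have hp1 : (1 : ℝ) < p := by exact_mod_cast hp.out.one_lt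
  obtain ⟨E, h1, h2⟩ := general (M := ι → ℤ_[p]) (fun (x : ι → ℕ) i => (x i : ℤ_[p])) (fun x => Finset.univ.sup x)
    hp1 hs hκ S C (by
      intro j f T hT
      have e : {x : ι → ℕ | x ∈ S j f ∧ Finset.univ.sup x ≤ T} = {x : ι → ℕ | x ∈ S j f ∧ ∀ i, x i ≤ T} := by
        ext x
        simp [Finset.sup_le_iff]
      rw [e]
      exact hS j f T hT)
  refine ⟨E, h1, fun α hα j => ?_⟩
  obtain ⟨f₀, h3⟩ := h2 α hα j
  refine ⟨f₀, fun f hf x hx hd => h3 f hf x ?_ ?_⟩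
  · have h4 : Finset.univ.sup x ≤ ⌊(p : ℝ) ^ (κ * f)⌋₊ := Finset.sup_le fun i _ => Nat.le_floor (hx i)
    exact (Nat.cast_le.2 h4).trans (Nat.floor_le (by positivity))
  · rw [dist_pi_le_iff (by positivity)]
    intro i
    rw [dist_eq_norm]
    exact dist_le_of_dvd p (hd i)

/-- **Tuples of integers.** -/
theorem classes_int (p : ℕ) [hp : Fact p.Prime] {ι : Type} [Fintype ι] {s κ : ℝ} (hs : 0 ≤ s) (hκ : 0 < κ)
    (S : ℕ → ℕ → Set (ι → ℤ)) (C : ℕ → ℝ)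
    (hS : ∀ j f T : ℕ, 1 ≤ T → {x : ι → ℤ | x ∈ S j f ∧ ∀ i, |x i| ≤ T}.Finite ∧
      ({x : ι → ℤ | x ∈ S j f ∧ ∀ i, |x i| ≤ T}.ncard : ℝ) ≤ C j * (T : ℝ) ^ s) :
    ∃ E : Set (ι → ℤ_[p]), dimH E ≤ ENNReal.ofReal (κ * s) ∧ ∀ α ∉ E, ∀ j, ∃ f₀ : ℕ, ∀ f : ℕ, f₀ ≤ f →
      ∀ x : ι → ℤ, (∀ i, |(x i : ℝ)| ≤ (p : ℝ) ^ (κ * f)) → (∀ i, (p : ℤ_[p]) ^ f ∣ (x i : ℤ_[p]) - α i) → x ∉ S j f := by
  classical
  have hp1 : (1 : ℝ) < p := by exact_mod_cast hp.out.one_lt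
  obtain ⟨E, h1, h2⟩ := general (M := ι → ℤ_[p]) (fun (x : ι → ℤ) i => (x i : ℤ_[p]))
    (fun x => Finset.univ.sup fun i => (x i).natAbs)
    hp1 hs hκ S C (by
      intro j f T hT
      have e : {x : ι → ℤ | x ∈ S j f ∧ (Finset.univ.sup fun i => (x i).natAbs) ≤ T} =
          {x : ι → ℤ | x ∈ S j f ∧ ∀ i, |x i| ≤ T} := by
        ext x
        simp only [Set.mem_ofPred_eq, Finset.sup_le_iff, Finset.mem_univ, forall_true_left]
        refine and_congr_right fun _ => forall_congr' fun i => ?_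
        rw [Int.abs_eq_natAbs]
        exact Nat.cast_le.symm
      rw [e]
      exact hS j f T hT)
  refine ⟨E, h1, fun α hα j => ?_⟩
  obtain ⟨f₀, h3⟩ := h2 α hα j
  refine ⟨f₀, fun f hf x hx hd => h3 f hf x ?_ ?_⟩
  · have h4 : (Finset.univ.sup fun i => (x i).natAbs) ≤ ⌊(p : ℝ) ^ (κ * f)⌋₊ := by
      refine Finset.sup_le fun i _ => Nat.le_floor ?_
      rw [Nat.cast_natAbs, Int.cast_abs]
      exact hx i
    exact (Nat.cast_le.2 h4).trans (Nat.floor_le (by positivity))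
  · rw [dist_pi_le_iff (by positivity)]
    intro i
    rw [dist_eq_norm]
    exact dist_le_of_dvd p (hd i)

end Pool.Agent.V11300.PA
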