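import Pool.Agent.V11300.PA.Classes

/-! Rational tuples `p`-adically close to almost every point of `ℚ_p ^ n`. -/

set_option autoImplicit false

open Filter Topology

namespace Pool.Agent.V11300.PA

/-- Sets `S j T` of `n`-tuples of rational numbers with at most `C_j T ^ s` members. For all `α ∈ ℚ_p ^ n` outside of a set
of dimension at most `κ s`, all `j` and all large `m` no `q` with `|q_i - α_i|_p ≤ p ^ (-m)` is in `S j (p ^ (κ m))`. -/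
theorem rationals (p : ℕ) [hp : Fact p.Prime] {n : ℕ} {s κ : ℝ} (hs : 0 ≤ s) (hκ : 0 < κ)
    (S : ℕ → ℝ → Set (Fin n → ℚ)) (C : ℕ → ℝ)
    (hS : ∀ j, ∀ T : ℝ, 1 ≤ T → (S j T).Finite ∧ ((S j T).ncard : ℝ) ≤ C j * T ^ s) :
    ∃ E : Set (Fin n → ℚ_[p]), dimH E ≤ ENNReal.ofReal (κ * s) ∧ ∀ α ∉ E, ∀ j, ∃ m₀ : ℕ, ∀ m : ℕ, m₀ ≤ m →
      ∀ q : Fin n → ℚ, (∀ i, ‖((q i : ℚ) : ℚ_[p]) - α i‖ ≤ (p : ℝ) ^ (-(m : ℝ))) → q ∉ S j ((p : ℝ) ^ (κ * m)) := by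
  have hp1 : (1 : ℝ) < p := by exact_mod_cast hp.out.one_lt
  have hT1 : ∀ m : ℕ, 1 ≤ (p : ℝ) ^ (κ * m) := fun m => Real.one_le_rpow hp1.le (by positivity)
  obtain ⟨E, h1, h2⟩ := general (M := Fin n → ℚ_[p]) (Q := ℕ × (Fin n → ℚ)) (fun t => fun i => ((t.2 i : ℚ) : ℚ_[p]))
    (fun t => ⌊(p : ℝ) ^ (κ * t.1)⌋₊) hp1 hs hκ
    (fun j m => {t | t.1 = m ∧ t.2 ∈ S j ((p : ℝ) ^ (κ * m))}) (fun j => |C j| * 2 ^ s) (by
      intro j m T hT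
      have hT' : (1 : ℝ) ≤ T := by exact_mod_cast hT
      rcases le_or_gt ⌊(p : ℝ) ^ (κ * m)⌋₊ T with h | h
      · obtain ⟨g1, g2⟩ := hS j _ (hT1 m)
        have hsub : {x : ℕ × (Fin n → ℚ) | x ∈ {t : ℕ × (Fin n → ℚ) | t.1 = m ∧ t.2 ∈ S j ((p : ℝ) ^ (κ * m))} ∧
            ⌊(p : ℝ) ^ (κ * x.1)⌋₊ ≤ T} ⊆ (fun q : Fin n → ℚ => (m, q)) '' S j ((p : ℝ) ^ (κ * m)) := by
          rintro ⟨m', q⟩ ⟨⟨h3, h4⟩, -⟩
          simp only at h3 h4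
          subst h3
          exact ⟨q, h4, rfl⟩
        refine ⟨(g1.image _).subset hsub, ?_⟩
        have h3 := Set.ncard_le_ncard hsub (g1.image _)
        rw [Set.ncard_image_of_injective _ fun x y h => (Prod.mk.inj h).2] at h3
        refine ((Nat.cast_le (α := ℝ)).2 h3).trans (g2.trans ?_)
        rw [mul_assoc, ← Real.mul_rpow (by norm_num) (by linarith)]
        refine mul_le_mul (le_abs_self _) ?_ (Real.rpow_nonneg (by linarith [hT1 m]) _) (abs_nonneg _)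
        refine Real.rpow_le_rpow (by linarith [hT1 m]) ?_ hs
        have h5 := Nat.lt_floor_add_one ((p : ℝ) ^ (κ * m))
        have h6 : ((⌊(p : ℝ) ^ (κ * m)⌋₊ : ℕ) : ℝ) ≤ T := by exact_mod_cast h
        linarith
      · have he : {x : ℕ × (Fin n → ℚ) | x ∈ {t : ℕ × (Fin n → ℚ) | t.1 = m ∧ t.2 ∈ S j ((p : ℝ) ^ (κ * m))} ∧
            ⌊(p : ℝ) ^ (κ * x.1)⌋₊ ≤ T} = ∅ := by
          ext ⟨m', q⟩
          simp only [Set.mem_ofPred_eq, Set.mem_empty_iff_false, iff_false, not_and, not_le, and_imp]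
          intro h3 _
          rw [h3]
          exact h
        rw [he]
        refine ⟨Set.finite_empty, ?_⟩
        rw [Set.ncard_empty, Nat.cast_zero]
        positivity)
  refine ⟨E, h1, fun α hα j => ?_⟩
  obtain ⟨m₀, hm⟩ := h2 α hα j
  refine ⟨m₀, fun m hmm q hq hmem => ?_⟩
  refine hm m hmm (m, q) (Nat.floor_le (by linarith [hT1 m])) ?_ ⟨rfl, hmem⟩
  rw [dist_pi_le_iff (by positivity)]
  intro i
  rw [dist_eq_norm]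
  exact hq i

/-- The form for the exceptional sets `Exc A B T` of the starting files, with at most `C T ^ (2 (n - 1) + β)` members for all
`β > β₀`, some `B`, `C`. -/
theorem rational_points (p : ℕ) [hp : Fact p.Prime] {n : ℕ} (hn : 1 ≤ n) {β₀ κ : ℝ} (hβ₀ : 0 ≤ β₀) (hκ : 0 < κ)
    (Exc : ℝ → ℝ → ℝ → Set (Fin n → ℚ))
    (h : ∀ A β : ℝ, 0 ≤ A → β₀ < β → ∃ B C : ℝ, ∀ T : ℝ, 1 ≤ T → (Exc A B T).Finite ∧
      ((Exc A B T).ncard : ℝ) ≤ C * T ^ (2 * ((n : ℝ) - 1) + β)) :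
    ∃ E : Set (Fin n → ℚ_[p]), dimH E ≤ ENNReal.ofReal (κ * (2 * ((n : ℝ) - 1) + β₀)) ∧ ∀ α ∉ E, ∀ A : ℕ,
      ∃ (B : ℝ) (m₀ : ℕ), ∀ m : ℕ, m₀ ≤ m → ∀ q : Fin n → ℚ,
        (∀ i, ‖((q i : ℚ) : ℚ_[p]) - α i‖ ≤ (p : ℝ) ^ (-(m : ℝ))) → q ∉ Exc A B ((p : ℝ) ^ (κ * m)) := by
  have hn1 : (1 : ℝ) ≤ n := by exact_mod_cast hn
  have hk : ∀ k : ℕ, ∃ E : Set (Fin n → ℚ_[p]),
      dimH E ≤ ENNReal.ofReal (κ * (2 * ((n : ℝ) - 1) + (β₀ + 1 / ((k : ℝ) + 1)))) ∧ ∀ α ∉ E, ∀ A : ℕ,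
      ∃ (B : ℝ) (m₀ : ℕ), ∀ m : ℕ, m₀ ≤ m → ∀ q : Fin n → ℚ,
        (∀ i, ‖((q i : ℚ) : ℚ_[p]) - α i‖ ≤ (p : ℝ) ^ (-(m : ℝ))) → q ∉ Exc A B ((p : ℝ) ^ (κ * m)) := by
    intro k
    have hpos : 0 < 1 / ((k : ℝ) + 1) := by positivity
    choose B C hBC using fun A : ℕ => h A (β₀ + 1 / ((k : ℝ) + 1)) (Nat.cast_nonneg A) (by linarith)
    obtain ⟨E, h1, h2⟩ := rationals p (s := 2 * ((n : ℝ) - 1) + (β₀ + 1 / ((k : ℝ) + 1))) (by linarith) hκ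
      (fun A T => Exc A (B A) T) C hBC
    exact ⟨E, h1, fun α hα A => ⟨B A, h2 α hα A⟩⟩
  choose E hE1 hE2 using hk
  refine ⟨⋂ k, E k, ?_, fun α hα A => ?_⟩
  · have h1 : ∀ k : ℕ, dimH (⋂ k, E k) ≤ ENNReal.ofReal (κ * (2 * ((n : ℝ) - 1) + (β₀ + 1 / ((k : ℝ) + 1)))) := fun k =>
      (dimH_mono (Set.iInter_subset E k)).trans (hE1 k)
    have h2 : Tendsto (fun k : ℕ => ENNReal.ofReal (κ * (2 * ((n : ℝ) - 1) + (β₀ + 1 / ((k : ℝ) + 1))))) atTop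
        (𝓝 (ENNReal.ofReal (κ * (2 * ((n : ℝ) - 1) + (β₀ + 0))))) := by
      refine (ENNReal.continuous_ofReal.tendsto _).comp ?_
      exact ((tendsto_const_nhds.add tendsto_one_div_add_atTop_nhds_zero_nat).const_add _).const_mul κ
    rw [add_zero] at h2
    exact ge_of_tendsto' h2 h1
  · rw [Set.mem_iInter, not_forall] at hα
    obtain ⟨k, hk⟩ := hα
    exact hE2 k α hk A

lemma beta_nonneg (d k : ℕ) : (0 : ℝ) ≤ 2 - 2 / (((d : ℝ) + 1) ^ k + 1) := by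
  have h1 : (1 : ℝ) ≤ ((d : ℝ) + 1) ^ k := one_le_pow₀ (by linarith [Nat.cast_nonneg (α := ℝ) d])
  have h2 : 2 / (((d : ℝ) + 1) ^ k + 1) ≤ 2 := by
    rw [div_le_iff₀ (by linarith)]
    nlinarith
  linarith

end Pool.Agent.V11300.PA
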