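import Pool.Agent.V11300.PA.Classes

/-! The engine of `Classes.lean` for counts with an `ε` in the exponent. -/

set_option autoImplicit false

open Filter Topology

namespace Pool.Agent.V11300.PA

theorem general_eps {M : Type*} [MetricSpace M] {Q : Type*} (ψ : Q → M) (ht : Q → ℕ) {b : ℝ} (hb : 1 < b) {s κ : ℝ}
    (hs : 0 ≤ s) (hκ : 0 < κ) (S : ℕ → ℕ → Set Q)
    (hS : ∀ ε : ℝ, 0 < ε → ∃ C : ℕ → ℝ, ∀ j f T : ℕ, 1 ≤ T → {x | x ∈ S j f ∧ ht x ≤ T}.Finite ∧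
      ({x | x ∈ S j f ∧ ht x ≤ T}.ncard : ℝ) ≤ C j * (T : ℝ) ^ (s + ε)) :
    ∃ E : Set M, dimH E ≤ ENNReal.ofReal (κ * s) ∧ ∀ α ∉ E, ∀ j, ∃ f₀ : ℕ, ∀ f : ℕ, f₀ ≤ f → ∀ x : Q,
      (ht x : ℝ) ≤ b ^ (κ * f) → dist (ψ x) α ≤ b ^ (-(f : ℝ)) → x ∉ S j f := by
  have h : ∀ m : ℕ, ∃ E : Set M, dimH E ≤ ENNReal.ofReal (κ * (s + 1 / ((m : ℝ) + 1))) ∧ ∀ α ∉ E, ∀ j, ∃ f₀ : ℕ,
      ∀ f : ℕ, f₀ ≤ f → ∀ x : Q,
      (ht x : ℝ) ≤ b ^ (κ * f) → dist (ψ x) α ≤ b ^ (-(f : ℝ)) → x ∉ S j f := by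
    intro m
    obtain ⟨C, hC⟩ := hS (1 / ((m : ℝ) + 1)) (by positivity)
    exact general ψ ht hb (by positivity) hκ S C hC
  choose E hE1 hE2 using h
  refine ⟨⋂ m, E m, ?_, fun α hα => ?_⟩
  · have h1 : ∀ m : ℕ, dimH (⋂ m, E m) ≤ ENNReal.ofReal (κ * (s + 1 / ((m : ℝ) + 1))) := fun m =>
      (dimH_mono (Set.iInter_subset E m)).trans (hE1 m)
    have h2 : Tendsto (fun m : ℕ => ENNReal.ofReal (κ * (s + 1 / ((m : ℝ) + 1)))) atTop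
        (𝓝 (ENNReal.ofReal (κ * (s + 0)))) := by
      refine (ENNReal.continuous_ofReal.tendsto _).comp ?_
      exact (tendsto_const_nhds.add tendsto_one_div_add_atTop_nhds_zero_nat).const_mul κ
    rw [add_zero] at h2
    exact ge_of_tendsto' h2 h1
  · rw [Set.mem_iInter, not_forall] at hα
    obtain ⟨m, hm⟩ := hα
    exact hE2 m α hm

/-- from counts at real numbers, for a set of natural numbers -/
theorem nat_eps (p : ℕ) [hp : Fact p.Prime] {s κ : ℝ} (hs : 0 ≤ s) (hκ : 0 < κ) (S : ℕ → Set ℕ)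
    (hS : ∀ j, ∀ ε : ℝ, 0 < ε → ∃ C : ℝ, ∀ X : ℝ, 1 ≤ X → {t : ℕ | t ∈ S j ∧ (t : ℝ) ≤ X}.Finite ∧
      ({t : ℕ | t ∈ S j ∧ (t : ℝ) ≤ X}.ncard : ℝ) ≤ C * X ^ (s + ε)) :
    ∃ E : Set ℤ_[p], dimH E ≤ ENNReal.ofReal (κ * s) ∧ ∀ α ∉ E, ∀ j, ∃ f₀ : ℕ, ∀ f : ℕ, f₀ ≤ f → ∀ t : ℕ,
      (t : ℝ) ≤ (p : ℝ) ^ (κ * f) → (p : ℤ_[p]) ^ f ∣ (t : ℤ_[p]) - α → t ∉ S j := by
  have hp1 : (1 : ℝ) < p := by exact_mod_cast hp.out.one_lt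
  obtain ⟨E, h1, h2⟩ := general_eps (M := ℤ_[p]) (fun t : ℕ => (t : ℤ_[p])) (fun t => t) hp1 hs hκ (fun j _ => S j) (by
    intro ε hε
    choose C hC using fun j => hS j ε hε
    refine ⟨C, fun j _ T hT => ?_⟩
    have h3 := hC j (T : ℝ) (by exact_mod_cast hT)
    have e : {t : ℕ | t ∈ S j ∧ (t : ℝ) ≤ (T : ℝ)} = {t : ℕ | t ∈ S j ∧ t ≤ T} := by
      ext t
      simp
    rw [e] at h3
    exact h3)
  refine ⟨E, h1, fun α hα j => ?_⟩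
  obtain ⟨f₀, hf⟩ := h2 α hα j
  refine ⟨f₀, fun f hff t ht hd => hf f hff t ht ?_⟩
  rw [dist_eq_norm]
  exact dist_le_of_dvd p hd

end Pool.Agent.V11300.PA
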